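import Mathlib

/-!
# Dimensions of the images of a filtered domain
-/

open Module

namespace Pool.Agent.TH116.GD

variable {A B : Type*} [CommRing A] [Algebra ℚ A] [CommRing B] [Algebra ℚ B]

/-- Finite-dimensional subspaces `F n` of a domain with `F m F n ⊆ F (m + n)`. -/
structure IsModel (F : ℕ → Submodule ℚ A) : Prop where
  domain : IsDomain A
  finite : ∀ n, FiniteDimensional ℚ (F n)
  mul_mem : ∀ (m n : ℕ) (x y : A), x ∈ F m → y ∈ F n → x * y ∈ F (m + n)

/-- If a non-zero element of `F w` is mapped to zero, then the image of `F n` has dimension at most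
`dim F n - dim F (n - w)`. -/
theorem gap {F : ℕ → Submodule ℚ A} (hF : IsModel F) (φ : A →ₐ[ℚ] B) {w : ℕ} {r : A}
    (hr : r ∈ F w) (hr0 : r ≠ 0) (hφ : φ r = 0) {n : ℕ} (hn : w ≤ n) :
    finrank ℚ (F (n - w)) + finrank ℚ ((F n).map φ.toLinearMap) ≤ finrank ℚ (F n) := by
  have := hF.domain
  have := hF.finite
  set ψ : F n →ₗ[ℚ] B := φ.toLinearMap.domRestrict (F n) with hψ
  have hrange : LinearMap.range ψ = (F n).map φ.toLinearMap := by
    rw [hψ, LinearMap.range_domRestrict]
  have hker : finrank ℚ (F (n - w)) ≤ finrank ℚ (LinearMap.ker ψ) := by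
    have hmem : ∀ y : F (n - w), r * (y : A) ∈ F n := by
      intro y
      have h1 := hF.mul_mem w (n - w) r y hr y.2
      rwa [Nat.add_sub_cancel' hn] at h1
    let μ : F (n - w) →ₗ[ℚ] LinearMap.ker ψ :=
      { toFun := fun y => ⟨⟨r * (y : A), hmem y⟩, by
          rw [LinearMap.mem_ker]
          show φ (r * (y : A)) = 0
          rw [map_mul, hφ, zero_mul]⟩
        map_add' := fun y z => by
          ext
          show r * ((y : A) + z) = r * y + r * z
          ring
        map_smul' := fun c y => by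
          ext
          show r * (c • (y : A)) = c • (r * y)
          rw [mul_smul_comm] }
    refine LinearMap.finrank_le_finrank_of_injective (f := μ) ?_
    refine (injective_iff_map_eq_zero μ).2 fun y hy => ?_
    have h1 : r * (y : A) = 0 := congrArg (fun z : LinearMap.ker ψ => ((z : F n) : A)) hy
    have h2 : (y : A) = 0 := by
      rcases mul_eq_zero.1 h1 with h | h
      · exact absurd h hr0
      · exact h
    exact Subtype.ext h2
  have hrn := LinearMap.finrank_range_add_finrank_ker ψ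
  rw [hrange] at hrn
  omega

/-- The image of `F n` has the dimension of `F n` if the homomorphism is injective on `F n`. -/
theorem finrank_map_of_injOn {F : ℕ → Submodule ℚ A} (φ : A →ₐ[ℚ] B)
    {n : ℕ} (h : ∀ x ∈ F n, φ x = 0 → x = 0) :
    finrank ℚ ((F n).map φ.toLinearMap) = finrank ℚ (F n) := by
  set ψ : F n →ₗ[ℚ] B := φ.toLinearMap.domRestrict (F n) with hψ
  have hrange : LinearMap.range ψ = (F n).map φ.toLinearMap := by
    rw [hψ, LinearMap.range_domRestrict]
  rw [← hrange]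
  refine LinearMap.finrank_range_of_inj ?_
  refine (injective_iff_map_eq_zero ψ).2 fun y hy => ?_
  exact Subtype.ext (h y y.2 hy)

/-- Zagier's sequence. -/
def IsZagier (d : ℕ → ℕ) : Prop :=
  d 0 = 1 ∧ d 1 = 0 ∧ d 2 = 1 ∧ ∀ n, d (n + 3) = d (n + 1) + d n

lemma IsZagier.props {d : ℕ → ℕ} (h : IsZagier d) (n : ℕ) :
    1 ≤ d (n + 2) ∧ d (n + 2) ≤ d (n + 3) ∧ d (n + 3) ≤ d (n + 4) ∧ d (n + 3) ≤ 2 * d (n + 2) ∧
      1 ≤ d (n + 3) := by
  obtain ⟨h0, h1, h2, hrec⟩ := h
  have h3 : d 3 = 1 := by rw [hrec 0, h1, h0]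
  have h4 : d 4 = 1 := by rw [hrec 1, h2, h1]
  induction n with
  | zero => simp only [zero_add]; omega
  | succ n ih =>
    have e1 := hrec (n + 1)
    have e2 := hrec (n + 2)
    have e3 := hrec n
    have e1' : d (n + 4) = d (n + 2) + d (n + 1) := e1
    have e2' : d (n + 5) = d (n + 3) + d (n + 2) := e2
    show 1 ≤ d (n + 3) ∧ d (n + 3) ≤ d (n + 4) ∧ d (n + 4) ≤ d (n + 5) ∧
      d (n + 4) ≤ 2 * d (n + 3) ∧ 1 ≤ d (n + 4)
    omega

/-- `d n ≤ 2 ^ w d (n - w)` for `n ≥ w + 2`. -/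
lemma IsZagier.ratio {d : ℕ → ℕ} (h : IsZagier d) (w n : ℕ) :
    d (n + 2 + w) ≤ 2 ^ w * d (n + 2) := by
  induction w with
  | zero => simp
  | succ w ih =>
    have h1 := (h.props (n + w)).2.2.2.1
    have e1 : n + w + 3 = n + 2 + (w + 1) := by ring
    have e2 : n + w + 2 = n + 2 + w := by ring
    rw [e1, e2] at h1
    calc d (n + 2 + (w + 1)) ≤ 2 * d (n + 2 + w) := h1
      _ ≤ 2 * (2 ^ w * d (n + 2)) := Nat.mul_le_mul_left _ ih
      _ = 2 ^ (w + 1) * d (n + 2) := by ring

end Pool.Agent.TH116.GD
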